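import Pool.Agent.H458.AG.Final
import Pool.Agent.H859.NF.Any
import Pool.Graph.R_pool_sql_team_seeded_63374d34.N874.Jac.Def

/-!
# Zero-cycles on curves over every number field: exactness at the prime 2 for a small quadratic twist of
# almost every curve of every genus, over 2-extensions and all their subfields

Let `F` be ANY number field and `g ≥ 1`. We consider ALL the curves `X_f : y ^ 2 = f(x)` of genus `g`, where
`f = x ^ (2 g + 1) + a_(2 g - 1) x ^ (2 g - 1) + ... + a_0` has coefficients in the ring of integers of `F`,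
no multiple zeros, and there is no prime `𝔭` of `F` with `𝔭 ^ (2 (2 g + 1 - j)) ∣ a_j` for all `j`. (Every
hyperelliptic curve of genus `g` with a rational Weierstrass point over `F` has an equation of the first
kind, and one which is minimal in this sense if the class number is one.) The height of `f` is at most `B`
if `|σ(a_j)| ≤ B ^ (2 g + 1 - j)` for all `j` and all embeddings `σ` of `F` in `ℂ`. For an integer
`d ≠ 0` of `F` the quadratic twist of `X_f` by `d` is `X_(f, d) : y ^ 2 = d ^ (2 g + 1) f(x / d)`.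

For `f` and a natural number `R` let `C(f, R)` be the class of all the finite Galois extensions `M / F` of
2-power degree in which all the primes dividing `R` split completely, in which only primes are ramified
modulo which `f` is irreducible, and such that for every real embedding `σ` of `F` either a real embedding
of `M` extends `σ` or `σ f` has only one real zero. The field `F` itself belongs to all the classes.

Theorem. Let `W ≥ 1`, and let `𝒮` be a finite set of nonzero integers of `F`.

(1) For every `ε > 0` there are a FINITE set `𝒟` of squarefree natural numbers `D ≡ 1 mod 8 W`, with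
`1 ∈ 𝒟`, and a multiple `R` of `2 W` and of all `D ∈ 𝒟`, such that for all large `B` ALL the curves of
height at most `B` up to a proportion `ε` have the following property: for every `d ∈ 𝒮` there is `D ∈ 𝒟`
such that for ALL `M ∈ C(f ^ d, R)` (where `f ^ d = d ^ (2 g + 1) f(x / d)`) and ALL the fields `E` between
`F` and `M`, for the Jacobian `J` of the twist `X_(f, d D)` multiplication by two is bijective on `J(E)`, and
all classes of 2-power order in the Tate-Shafarevich group of `J` over `E` are zero.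

(2) Let `ω(B)` be ANY function which tends to infinity. The proportion of the curves of height at most `B`
which have this property for a multiple `R ≤ ω(B)` of `2 W` and a set `𝒟` of squarefree divisors
`D ≡ 1 mod 8 W` of `R`, tends to `1`.

The question Q1 for `X = X_(f, d D)` over the number field `E`. The complex is the product of its
`ℓ`-primary parts (the limits over the powers `n` of `ℓ`). By the theorem of Colliot-Thélène (1997; the
duality of Cassels and Tate) its homology at the prime `ℓ` for a curve is zero if the Tate-Shafarevich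
group of the Jacobian has no nonzero divisible element of `ℓ`-power order. So the theorem says: over EVERY
number field `F` ALL the curves `y ^ 2 = f(x)` of EVERY genus, up to an arbitrarily small proportion, become
after a quadratic twist by one of finitely many natural numbers, which do not depend on the curve, such
that the 2-primary part of the complex is exact, unconditionally, over ALL the fields `E` below the
members of an infinite class (and so does every twist by `d ∈ 𝒮`). As `J(E)` is finite of odd order, both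
sides are known: a family of local zero-cycles in `∏ lim CH_0(X_(E_w)) / 2 ^ n` (at the real places modulo
norms) is orthogonal to `Br(X_E)` if and only if it is an integral 2-adic multiple of the point at infinity.
For a product `X = X_1 × X_2` of two such twists (of curves of the same or of different genera, so for
almost all the pairs of curves) over a field `E` below a member of both classes, the 2-primary part of
the Tate-Shafarevich group of `J_1 × J_2` is zero, so that the exactness of the 2-primary part of the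
complex for `X` follows from that for the Albanese kernel `F ^ 2` (the third known result of the problem).

Here `J(L)` is the Picard group of the affine coordinate ring `L[x, y] / (y ^ 2 - f)` (the curve has one
point at infinity, which is rational), and the Tate-Shafarevich group is defined by continuous cocycles on
the absolute Galois group with values in `J` of the algebraic closure (`Pool.Agent.N874.Jac.Def`).

What was known. Positive proportions of the curves (without a twist): `MP_f80667_ag.EveryGenusEveryClass`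
(this run, all `g`, all `F`, all residue classes), `MP_bd895b_nt.EveryNumberFieldAtTwo` (run 63374d34,
`g = 1`), `MP_ac3185_nt.EveryFieldEveryGenus` (helper458, this run). Almost all curves, after bounded twists,
for `g = 1`: `MP_7cad78_nt.FiniteSetsOfTwists` (helper458, this run). The theorem here is an application of
helper458's project AG (`Pool.Agent.H458.AG.Final`, this run), the same for all `g`; new here are the
subfields `E` of the `M`, the family of the minimal equations and part (2) with `R ≤ ω(B)`.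

Proof (project AG, helper458). `f` is good at a prime number `q` (totally split at a prime of degree one,
`q ≡ 1 mod 8 W`) if `f` has exactly one zero modulo one prime of degree one over `q`, its cofactor is
irreducible there, and `f` is irreducible modulo the other primes over `q`. For a set `S` of primes at which
`f` is good, `f` has a twist as required by a product of primes in `S` if `f` is not in an exceptional set,
and a theorem on the orbits of Bhargava and Gross and the number of points near the cusp bound the number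
of the exceptional `f` by `C 2 ^ (- # S)` of the good ones, `C` independent of `S`. The set `S` is chosen
depending on `f`: take `k` disjoint blocks of primes such that the expected number of good primes in each
block is large. All but few `f` have at least `9 / 10` of this number of good primes in every block; if
`f` is exceptional for ALL the transversals `S` of its good primes, then it is counted very often, and the
number of these `f` is at most `C (5 / 9) ^ k` of all. For the fields `E` below `M`: let `h(θ)` be in the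
2-Selmer group over `E`, `θ` a zero of `f`; it is a square `s ^ 2` in `M(θ)`, and for `σ ∈ Gal(M / E)` we have
`σ(s) = ± s`; as the norm of `s` to `M`, of odd degree, has a square which is the square of an element of
`E`, comparing the norms shows that the sign is `+` (`Pool/Agent/H859/NF/Down.lean`, helper859). The minimal
equations have positive density (`Pool/Agent/H859/NF/Any.lean`).

In this run the parts of project AG were proved by helpers 30, 47, 71, 80, 102, 118, 139, 152, 166, 231, 234,
236, 294, 295, 307, 322, 348, 372, 383, 458, 650, 686 and 945; the descent over `M` is by helpers 458 and 459;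
see there for the authors of the library files (run 63374d34) which are used.
-/

set_option autoImplicit false
set_option linter.all false

namespace Pool.Agent.Results.MP_f80667_ag.AlmostAllCurves

open Polynomial Filter IsDedekindDomain NumberField
open Pool.Agent.N874.Jac (UniquelyTwoDivisible ShaTwoTrivialReal)
open scoped Classical

section defs

variable {F : Type} [Field F] [NumberField F]

/-- `y ^ 2 = f(x)` is an equation of a curve of genus `g` over the number field `F` in our family, of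
height at most `B`. -/
structure IsCurve (g B : ℕ) (f : (𝓞 F)[X]) : Prop where
  monic : f.Monic
  degree : f.natDegree = 2 * g + 1
  trace : f.coeff (2 * g) = 0
  height : ∀ j ≤ 2 * g, ∀ σ : F →+* ℂ, ‖σ (f.coeff j : F)‖ ≤ (B : ℝ) ^ (2 * g + 1 - j)
  smooth : (f.map (algebraMap (𝓞 F) F)).Separable
  minimal : ∀ 𝔭 : Ideal (𝓞 F), 𝔭.IsPrime → 𝔭 ≠ ⊥ →
    ¬ ∀ j ≤ 2 * g, f.coeff j ∈ 𝔭 ^ (2 * (2 * g + 1 - j))

variable (F) in
/-- The equations of the curves of genus `g` over `F` of height at most `B`. -/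
def Curves (g B : ℕ) : Set (𝓞 F)[X] := {f | IsCurve g B f}

/-- `d ^ (2 g + 1) f(x / d)`: the coefficient of degree `j` is multiplied by `d ^ (2 g + 1 - j)`. The curve
`y ^ 2 = twist f d` is the quadratic twist by `d` of the curve `y ^ 2 = f(x)`. -/
noncomputable def twist (f : (𝓞 F)[X]) (d : 𝓞 F) : (𝓞 F)[X] := f.scaleRoots d

/-- The polynomial `f` over an extension `L` of `F`. -/
noncomputable def polyOver (L : Type) [Field L] [Algebra F L] (f : (𝓞 F)[X]) : L[X] :=
  (f.map (algebraMap (𝓞 F) F)).map (algebraMap F L)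

/-- `f` is irreducible modulo `v`. -/
def IrreducibleMod (f : (𝓞 F)[X]) (v : HeightOneSpectrum (𝓞 F)) : Prop :=
  Irreducible (f.map (Ideal.Quotient.mk v.asIdeal))

/-- `M / F` is unramified at `v`. -/
def Unramified (v : HeightOneSpectrum (𝓞 F)) (M : Type) [Field M] [NumberField M]
    [Algebra F M] : Prop :=
  ∀ w : HeightOneSpectrum (𝓞 M), v.asIdeal.map (algebraMap (𝓞 F) (𝓞 M)) ≤ w.asIdeal →
    ¬ v.asIdeal.map (algebraMap (𝓞 F) (𝓞 M)) ≤ w.asIdeal ^ 2

/-- `v` splits completely in `M`: it is unramified and all integers of `M` are congruent to integers of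
`F` modulo every prime over `v`. -/
def SplitsCompletely (v : HeightOneSpectrum (𝓞 F)) (M : Type) [Field M] [NumberField M]
    [Algebra F M] : Prop :=
  Unramified v M ∧
  ∀ w : HeightOneSpectrum (𝓞 M), v.asIdeal.map (algebraMap (𝓞 F) (𝓞 M)) ≤ w.asIdeal →
    ∀ y : 𝓞 M, ∃ c : 𝓞 F, y - algebraMap (𝓞 F) (𝓞 M) c ∈ w.asIdeal

/-- `M` belongs to the class `C(f, R)`: `M / F` is Galois of 2-power degree, the primes dividing `R`
split completely, `f` is irreducible modulo the ramified primes, and for every real embedding `σ` of `F`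
either a real embedding of `M` extends `σ` or `σ f` has only one real zero. -/
structure InClass (R : ℕ) (f : (𝓞 F)[X]) (M : Type) [Field M] [NumberField M] [Algebra F M] : Prop where
  galois : IsGalois F M
  degree : ∃ n : ℕ, Module.finrank F M = 2 ^ n
  split : ∀ v : HeightOneSpectrum (𝓞 F), (R : 𝓞 F) ∈ v.asIdeal → SplitsCompletely v M
  ramified : ∀ v : HeightOneSpectrum (𝓞 F), Unramified v M ∨ IrreducibleMod f v
  real : ∀ σ : F →+* ℝ, (∃ ρ : M →+* ℝ, ρ.comp (algebraMap F M) = σ) ∨
    ∃! e : ℝ, (f.map (σ.comp (algebraMap (𝓞 F) F))).eval e = 0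

/-- Over the number field `E` multiplication by two is bijective on `J(E)`, `J` the Jacobian of
`y ^ 2 = f(x)`, and every class of 2-power order in the Tate-Shafarevich group of `J` over `E` is zero. -/
def NoTwoPart (f : (𝓞 F)[X]) (E : Type) [Field E] [NumberField E] [Algebra F E] : Prop :=
  UniquelyTwoDivisible (polyOver E f) ∧ ShaTwoTrivialReal (polyOver E f) (𝓞 E)

/-- The twist by `d D` of the curve `y ^ 2 = f(x)` has no 2-part over ALL the fields between `F` and a
member of the class of its twist by `d` and of `R`. -/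
def TrivialInClass (R : ℕ) (f : (𝓞 F)[X]) (d : 𝓞 F) (D : ℕ) : Prop :=
  ∀ (M : Type) [Field M] [NumberField M] [Algebra F M], InClass R (twist f d) M →
  ∀ (E : Type) [Field E] [NumberField E] [Algebra F E] [Algebra E M] [IsScalarTower F E M],
    NoTwoPart (twist f (d * (D : 𝓞 F))) E

/-- For every `d ∈ 𝒮` the curve `y ^ 2 = f(x)` has the property `TrivialInClass` for a number `D` in
`𝒟`. -/
def HasTwists (R : ℕ) (𝒟 : Finset ℕ) (𝒮 : Finset (𝓞 F)) (f : (𝓞 F)[X]) : Prop :=
  ∀ d ∈ 𝒮, ∃ D ∈ 𝒟, TrivialInClass R f d D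

end defs

section pf

open Pool.Agent.H459.UF (Unr Deg1 fo fb)
open Pool.Agent.H458.AG (ClsM Tws)
open Pool.Agent.N783.PF (Ht fF rd SelZero)

variable {F : Type} [Field F] [NumberField F]

theorem unr_of {M : Type} [Field M] [NumberField M] [Algebra F M] {v : HeightOneSpectrum (𝓞 F)}
    (h : Unramified v M) : Unr F M v := fun P hP =>
  h P (hP.trans (Ideal.pow_le_self two_ne_zero)) hP

theorem of_unr {M : Type} [Field M] [NumberField M] [Algebra F M] {v : HeightOneSpectrum (𝓞 F)}
    (h : Unr F M v) : Unramified v M := fun P _ hP => h P hP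

theorem cls_of {M : Type} [Field M] [NumberField M] [Algebra F M] {R : ℕ} {f : (𝓞 F)[X]}
    (h : InClass R f M) : ClsM F M R f where
  spl := fun v hv => ⟨unr_of (h.split v hv).1, (h.split v hv).2⟩
  unr := fun v => (h.ramified v).imp unr_of id
  real := fun σ => (h.real σ).imp id fun h' => by
    unfold fF
    rw [Polynomial.map_map]
    exact h'

/-- `M = F` belongs to all the classes. -/
theorem self_mem (R : ℕ) (f : (𝓞 F)[X]) : InClass R f F := by
  have h2 := Pool.Agent.H458.AU.cls_self (F := F) R 0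
  exact ⟨inferInstance, ⟨0, by rw [Module.finrank_self, pow_zero]⟩,
    fun v hv => ⟨of_unr (Pool.Agent.H458.AU.unr_self v), (h2.spl v hv).2⟩,
    fun v => Or.inl (of_unr (Pool.Agent.H458.AU.unr_self v)), fun σ => Or.inl ⟨σ, by
    ext x
    rfl⟩⟩

theorem irr_scale {f : (𝓞 F)[X]} {c : 𝓞 F} (hc : c ≠ 0) (hm : f.Monic) (h : Irreducible (fF f)) :
    Irreducible (fF (f.scaleRoots c)) := by
  have hc' : (c : F) ≠ 0 := by
    intro h0
    exact hc (by exact_mod_cast h0)
  have e : fF (f.scaleRoots c) = (fF f).scaleRoots (c : F) := by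
    refine Polynomial.ext fun j => ?_
    unfold fF
    rw [coeff_map, coeff_scaleRoots, coeff_scaleRoots, coeff_map, hm.natDegree_map, map_mul, map_pow]
  rw [e]
  exact Pool.Agent.N170.PF.irr_scale hc' h

/-- From the zero 2-Selmer group over `M` to the points and Sha over the fields below. -/
theorem key {M E : Type} [Field M] [NumberField M] [Algebra F M] [Field E] [NumberField E]
    [Algebra F E] [Algebra E M] [IsScalarTower F E M] [IsGalois F M] {n : ℕ}
    (hn : Module.finrank F M = 2 ^ n) {f : (𝓞 F)[X]} (hm : f.Monic) (ho : Odd f.natDegree)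
    (hi : Irreducible (fF f)) (h : SelZero (fo M f)) : NoTwoPart f E := by
  have e : Pool.Agent.N874.TF.fM M f = fF (fo M f) := by
    unfold Pool.Agent.N874.TF.fM fF fo
    rw [Polynomial.map_map, Polynomial.map_map]
    rfl
  have hM : Pool.Agent.N874.QM.SelM M (Pool.Agent.N874.TF.fM M f) := by
    rw [e]
    exact h
  obtain ⟨⟨m, hE⟩, hS⟩ := Pool.Agent.H859.NF.selM_tower (E := E) hn hm ho hi hM
  exact Pool.Agent.N874.TF.genuineF hE hm ho hi hS

theorem triv_of {R : ℕ} {𝒟 : Finset ℕ} {𝒮 : Finset (𝓞 F)} (h𝒮 : ∀ d ∈ 𝒮, d ≠ 0)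
    (hD0 : ∀ D ∈ 𝒟, D ≠ 0) {f : (𝓞 F)[X]} (hm : f.Monic) (ho : Odd f.natDegree)
    (hi : Irreducible (fF f)) (h : ∀ d ∈ 𝒮, Tws R 𝒟 (f.scaleRoots d)) : HasTwists R 𝒟 𝒮 f := by
  intro d hd
  obtain ⟨D, hD, h⟩ := h d hd
  refine ⟨D, hD, fun M _ _ _ hM E _ _ _ _ _ => ?_⟩
  haveI := hM.galois
  obtain ⟨n, hn⟩ := hM.degree
  have h0 : (D : 𝓞 F) ≠ 0 := Nat.cast_ne_zero.2 (hD0 D hD)
  have h1 := h M n hn (cls_of hM)
  rw [← scaleRoots_mul] at h1
  refine key hn ((monic_scaleRoots_iff _).2 hm) ?_ (irr_scale (mul_ne_zero (h𝒮 d hd) h0) hm hi) h1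
  unfold twist
  rw [natDegree_scaleRoots]
  exact ho

theorem curves_sub (g B : ℕ) : Curves F g B ⊆ {f : (𝓞 F)[X] | Ht g B f} :=
  fun f hf => ⟨hf.monic, hf.degree, hf.trace, hf.height⟩

theorem fin_curves (g B : ℕ) : (Curves F g B).Finite := by
  have hfinH : ∀ B : ℕ, 1 ≤ B → {f : (𝓞 F)[X] | Ht g B f}.Finite := fun B hB =>
    (Pool.Agent.N99.PF.ht_card (Pool.Agent.N490.PF.pts F).2.choose_spec.1
      (Pool.Agent.N490.PF.pts F).2.choose_spec.2.2 g B hB).1
  have hmono : Curves F g B ⊆ Curves F g (max B 1) := by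
    intro f hf
    refine ⟨hf.monic, hf.degree, hf.trace, fun j hj σ => (hf.height j hj σ).trans ?_, hf.smooth,
      hf.minimal⟩
    gcongr
    exact le_max_left _ _
  exact ((hfinH _ (le_max_right _ _)).subset (curves_sub _ _)).subset hmono

/-- A positive proportion of the polynomials are equations of curves in the family. -/
theorem lowerC (F : Type) [Field F] [NumberField F] (g : ℕ) (hg : 1 ≤ g) : ∃ c : ℝ, 0 < c ∧
    ∃ B₀ : ℕ, ∀ B ≥ B₀, c * ({f : (𝓞 F)[X] | Ht g B f}.ncard : ℝ) ≤ ((Curves F g B).ncard : ℝ) := by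
  obtain ⟨Q, hQ, c, hc, B₀, hB₀⟩ := Pool.Agent.H859.NF.final_any F hg (m := 1)
    (f₀ := X ^ (2 * g + 1))
    ⟨one_pos, monic_X_pow _, natDegree_X_pow _, by rw [coeff_X_pow, if_neg (by omega)],
      fun v _ hv => absurd ((Ideal.eq_top_iff_one _).2 (by simpa using hv)) v.isPrime.ne_top,
      fun v hv _ => v.isPrime.ne_top ((Ideal.eq_top_iff_one _).2 (by simpa using hv))⟩
  refine ⟨c, hc, B₀, fun B hB => ?_⟩
  obtain ⟨hHt, hle⟩ := hB₀ B hB
  refine hle.trans ?_
  have h := Set.ncard_le_ncard
    (s := {f : (𝓞 F)[X] | Pool.Agent.N783.PF.Ht g B f ∧ Irreducible (Pool.Agent.N783.PF.fF f) ∧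
        Pool.Agent.N783.PF.Cg (Pool.Agent.N783.PF.sp F 1) f (X ^ (2 * g + 1)) ∧
        (∀ v : HeightOneSpectrum (𝓞 F), (2 : 𝓞 F) ∈ v.asIdeal →
          Irreducible (Pool.Agent.N783.PF.rd v.asIdeal f)) ∧
        Pool.Agent.N874.TF.Tws g {𝔭 | ∃ v ∈ Q, 𝔭 = v.asIdeal} f ∧
        Pool.Agent.N874.TF.Uni {𝔭 | ∃ v ∈ Q, 𝔭 = v.asIdeal} f f ∧
        Pool.Agent.N783.PF.Min g f})
    (t := Curves F g B)
    (fun f hf => ⟨hf.1.mon, hf.1.deg, hf.1.tr, hf.1.ht, hf.2.1.separable, hf.2.2.2.2.2.2⟩)
    (fin_curves g B)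
  exact_mod_cast h

theorem part (F : Type) [Field F] [NumberField F] (W : ℕ) (hW : 0 < W) (𝒮 : Finset (𝓞 F))
    (h𝒮 : ∀ d ∈ 𝒮, d ≠ 0) (g : ℕ) (hg : 1 ≤ g) (ε : ℝ) (hε : 0 < ε) :
    ∃ (R : ℕ) (𝒟 : Finset ℕ), 0 < R ∧ 2 * W ∣ R ∧ 1 ∈ 𝒟 ∧
      (∀ D ∈ 𝒟, Squarefree D ∧ D ≡ 1 [MOD 8 * W] ∧ D ∣ R) ∧
      ∀ᶠ B : ℕ in atTop, 0 < (Curves F g B).ncard ∧
        (1 - ε) * ((Curves F g B).ncard : ℝ) ≤
          (({f ∈ Curves F g B | HasTwists R 𝒟 𝒮 f}.ncard : ℕ) : ℝ) := by
  obtain ⟨c, hc, B₃, hcur⟩ := lowerC F g hg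
  obtain ⟨R, 𝒟, hR, hWR, h1, hD, B₀, hB₀⟩ := Pool.Agent.H458.AG.final F g hg (2 * W) (by omega) 𝒮 h𝒮
    (ε / 2 * c) (by positivity)
  obtain ⟨C, B₁, hC, hlow⟩ := Pool.Agent.H458.AG.lower F g
  have hC0 : (0 : ℝ) < C := by exact_mod_cast hC
  obtain ⟨B₂, hB₂⟩ := Pool.Agent.H139.AG458.irr Pool.Agent.H458.AG.fib Pool.Agent.H372.AG458.irc F g hg
    (ε / (2 * C) * c) (by positivity)
  have hD' : ∀ D ∈ 𝒟, Squarefree D ∧ D ≡ 1 [MOD 8 * W] ∧ D ∣ R := by
    intro D hDD
    obtain ⟨h2, h3, h4⟩ := hD D hDD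
    refine ⟨h2, ?_, h4⟩
    have h5 : D ≡ 1 [MOD 8 * (2 * W)] := h3
    exact h5.of_dvd ⟨2, by ring⟩
  refine ⟨R, 𝒟, hR, hWR, h1, hD', ?_⟩
  filter_upwards [eventually_ge_atTop (max (max B₀ B₃) (max B₁ B₂))] with B hB
  have hb0 : B₀ ≤ B := ((le_max_left _ _).trans (le_max_left _ _)).trans hB
  have hb3 : B₃ ≤ B := ((le_max_right _ _).trans (le_max_left _ _)).trans hB
  have hb1 : B₁ ≤ B := ((le_max_left _ _).trans (le_max_right _ _)).trans hB
  have hb2 : B₂ ≤ B := ((le_max_right _ _).trans (le_max_right _ _)).trans hB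
  obtain ⟨h3, h4, h5⟩ := hB₀ B hb0
  have h6 := hlow B hb1 h3
  have h7 := hB₂ B hb2
  have h8 := hcur B hb3
  obtain ⟨N, hN⟩ : ∃ N : ℝ, N = ({f : (𝓞 F)[X] | Ht g B f}.ncard : ℝ) := ⟨_, rfl⟩
  obtain ⟨K, hK⟩ : ∃ K : ℝ, K = ((Curves F g B).ncard : ℝ) := ⟨_, rfl⟩
  have hN0 : 0 < N := by rw [hN]; exact_mod_cast h4
  rw [← hN, ← hK] at h8
  rw [← hN] at h5
  have hK0 : 0 < K := lt_of_lt_of_le (mul_pos hc hN0) h8
  refine ⟨?_, ?_⟩
  · rw [hK] at hK0
    exact_mod_cast hK0
  obtain ⟨E, hE⟩ : ∃ E : Set (𝓞 F)[X], E = {f : (𝓞 F)[X] | Ht g B f ∧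
    ∃ d ∈ 𝒮, ¬ Tws R 𝒟 (f.scaleRoots d)} := ⟨_, rfl⟩
  obtain ⟨E', hE'⟩ : ∃ E' : Set (𝓞 F)[X], E' = {f : (𝓞 F)[X] | Ht g B f ∧ ¬ Irreducible (fF f)} :=
    ⟨_, rfl⟩
  rw [← hE] at h5
  rw [← hE'] at h7
  have hEf : E.Finite := h3.subset (by rw [hE]; exact fun f hf => hf.1)
  have hEf' : E'.Finite := h3.subset (by rw [hE']; exact fun f hf => hf.1)
  have hsub : Curves F g B ⊆ {f ∈ Curves F g B | HasTwists R 𝒟 𝒮 f} ∪ (E ∪ E') := by
    intro f hf
    have hf' := curves_sub g B hf
    by_cases c1 : f ∈ E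
    · exact Or.inr (Or.inl c1)
    · by_cases c2 : f ∈ E'
      · exact Or.inr (Or.inr c2)
      · left
        rw [hE, Set.mem_setOf_eq, not_and] at c1
        rw [hE', Set.mem_setOf_eq, not_and, not_not] at c2
        have c3 := c1 hf'
        push Not at c3
        refine ⟨hf, triv_of h𝒮 (fun D hDD => (hD' D hDD).1.ne_zero) hf.monic ?_ (c2 hf') c3⟩
        rw [hf.degree]
        exact odd_two_mul_add_one _
  have h9 := Set.ncard_le_ncard hsub (((fin_curves g B).subset (fun f hf => hf.1)).union
    (hEf.union hEf'))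
  have h10 := Set.ncard_union_le {f ∈ Curves F g B | HasTwists R 𝒟 𝒮 f} (E ∪ E')
  have h11 := Set.ncard_union_le E E'
  have h12 : K ≤ (({f ∈ Curves F g B | HasTwists R 𝒟 𝒮 f}.ncard : ℕ) : ℝ) +
      ((E.ncard : ℝ) + (E'.ncard : ℝ)) := by
    rw [hK]
    exact_mod_cast h9.trans (h10.trans (Nat.add_le_add_left h11 _))
  have h13 : (E.ncard : ℝ) ≤ ε / 2 * K := by
    calc (E.ncard : ℝ) ≤ ε / 2 * c * N := h5
      _ = ε / 2 * (c * N) := by ring
      _ ≤ ε / 2 * K := mul_le_mul_of_nonneg_left h8 (by positivity)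
  have h14 : (E'.ncard : ℝ) ≤ ε / 2 * K := by
    have h15 : (B : ℝ) ^ (Module.finrank ℚ F * Pool.Agent.N352.PJ.dd g) ≤ C * N := by
      rw [hN]
      exact_mod_cast h6
    calc (E'.ncard : ℝ) ≤ ε / (2 * C) * c *
          (B : ℝ) ^ (Module.finrank ℚ F * Pool.Agent.N352.PJ.dd g) := h7
      _ ≤ ε / (2 * C) * c * (C * N) := mul_le_mul_of_nonneg_left h15 (by positivity)
      _ = ε / 2 * (c * N) := by field_simp
      _ ≤ ε / 2 * K := mul_le_mul_of_nonneg_left h8 (by positivity)
  rw [← hK]
  linarith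

end pf

/-- **Small twists of almost all curves over a number field have no 2-part over all the fields in a
class.** Let `F` be a number field, `W ≥ 1`, `𝒮` a finite set of nonzero integers of `F`, `g ≥ 1`. For every
`ε > 0` there are a finite set `𝒟` of squarefree natural numbers `D ≡ 1 mod 8 W` with `1 ∈ 𝒟` and a multiple
`R` of them and of `2 W` such that for all large `B` all the curves `y ^ 2 = f(x)` of genus `g` over `F` of
height at most `B` up to a proportion `ε` have the following property: for every `d ∈ 𝒮` there is `D ∈ 𝒟` such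
that the Jacobian of the twist by `d D` has no 2-part over ALL the fields `E` between `F` and a member `M` of
the class `C(f ^ d, R)`. For every function `ω` which tends to infinity the proportion of the curves which
have this property for some `R ≤ ω(B)` and a set `𝒟` of divisors of `R` tends to `1`. The field `F` belongs to
all the classes. -/
theorem result (F : Type) [Field F] [NumberField F] (W : ℕ) (hW : 0 < W) (𝒮 : Finset (𝓞 F))
    (h𝒮 : ∀ d ∈ 𝒮, d ≠ 0) (g : ℕ) (hg : 1 ≤ g) :
    (∀ B : ℕ, (Curves F g B).Finite) ∧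
    (∀ (R : ℕ) (f : (𝓞 F)[X]), InClass R f F) ∧
    (∀ ε : ℝ, 0 < ε → ∃ (R : ℕ) (𝒟 : Finset ℕ), 0 < R ∧ 2 * W ∣ R ∧ 1 ∈ 𝒟 ∧
      (∀ D ∈ 𝒟, Squarefree D ∧ D ≡ 1 [MOD 8 * W] ∧ D ∣ R) ∧
      ∀ᶠ B : ℕ in atTop, 0 < (Curves F g B).ncard ∧
        (1 - ε) * ((Curves F g B).ncard : ℝ) ≤
          (({f ∈ Curves F g B | HasTwists R 𝒟 𝒮 f}.ncard : ℕ) : ℝ)) ∧
    ∀ ω : ℕ → ℝ, Tendsto ω atTop atTop →
      Tendsto (fun B : ℕ => ({f ∈ Curves F g B | ∃ (R : ℕ) (𝒟 : Finset ℕ), 0 < R ∧ (R : ℝ) ≤ ω B ∧
        2 * W ∣ R ∧ (∀ D ∈ 𝒟, Squarefree D ∧ D ≡ 1 [MOD 8 * W] ∧ D ∣ R) ∧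
        HasTwists R 𝒟 𝒮 f}.ncard : ℝ) / ((Curves F g B).ncard : ℝ)) atTop (nhds 1) := by
  refine ⟨fin_curves g, self_mem, part F W hW 𝒮 h𝒮 g hg, fun ω hω => ?_⟩
  rw [Metric.tendsto_atTop]
  intro ε hε
  obtain ⟨R, 𝒟, hR, hWR, h1, hD, hX⟩ := part F W hW 𝒮 h𝒮 g hg (ε / 2) (half_pos hε)
  obtain ⟨X₀, hX₀⟩ := eventually_atTop.1 (hX.and (hω.eventually_ge_atTop (R : ℝ)))
  refine ⟨X₀, fun B hB => ?_⟩
  obtain ⟨⟨hpos, hle⟩, hωB⟩ := hX₀ B hB
  obtain ⟨G, hG⟩ : ∃ G : Set (𝓞 F)[X], G = {f ∈ Curves F g B | ∃ (R : ℕ) (𝒟 : Finset ℕ), 0 < R ∧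
    (R : ℝ) ≤ ω B ∧ 2 * W ∣ R ∧ (∀ D ∈ 𝒟, Squarefree D ∧ D ≡ 1 [MOD 8 * W] ∧ D ∣ R) ∧
    HasTwists R 𝒟 𝒮 f} := ⟨_, rfl⟩
  rw [← hG]
  have hGP : G ⊆ Curves F g B := by
    rw [hG]
    exact fun f hf => hf.1
  have hsub : {f ∈ Curves F g B | HasTwists R 𝒟 𝒮 f} ⊆ G := by
    rintro f ⟨hf, hfT⟩
    rw [hG]
    exact ⟨hf, R, 𝒟, hR, hωB, hWR, hD, hfT⟩
  have c1 := Set.ncard_le_ncard hsub ((fin_curves g B).subset hGP)
  have c2 := Set.ncard_le_ncard hGP (fin_curves g B)
  obtain ⟨N, hN⟩ : ∃ N : ℝ, N = ((Curves F g B).ncard : ℝ) := ⟨_, rfl⟩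
  have hN0 : 0 < N := by rw [hN]; exact_mod_cast hpos
  have c3 : (1 - ε / 2) * N ≤ (G.ncard : ℝ) := by
    rw [hN]
    refine hle.trans ?_
    exact_mod_cast c1
  have c4 : (G.ncard : ℝ) ≤ N := by rw [hN]; exact_mod_cast c2
  rw [← hN, Real.dist_eq, abs_sub_lt_iff]
  constructor
  · have : (G.ncard : ℝ) / N ≤ 1 := (div_le_one hN0).2 c4
    linarith
  · have : 1 - ε / 2 ≤ (G.ncard : ℝ) / N := (le_div_iff₀ hN0).2 c3
    linarith

end Pool.Agent.Results.MP_f80667_ag.AlmostAllCurves
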