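import Pool.Agent.H859.NF.Any
import Pool.Graph.R_pool_sql_team_seeded_63374d34.N874.Jac.Def

/-!
# Zero-cycles on curves of every genus over every number field, in every residue class: exactness at the
# prime 2 over 2-extensions and all their subfields

Let `g ≥ 1` and let `F` be ANY number field. We consider the curves `C : y ^ 2 = f(x)` of genus `g`, where
`f = x ^ (2 g + 1) + a_(2 g - 1) x ^ (2 g - 1) + ... + a_0` has coefficients in the ring of integers of `F`,
no multiple zeros, and there is no prime `𝔭` of `F` with `𝔭 ^ (2 (2 g + 1 - j)) ∣ a_j` for all `j`. The height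
of `f` is at most `B` if `|σ(a_j)| ≤ B ^ (2 g + 1 - j)` for all `j` and all embeddings `σ` of `F` in `ℂ`.

For `f` and a finite set `Q` of primes of `F` let `C(f, Q)` be the class of all the finite Galois extensions
`M / F` of 2-power degree in which all the real places of `F`, all the primes over `2` and all `v ∈ Q`
split completely, and in which only primes are ramified modulo which `f` is irreducible; and let `E(f, Q)`
be the class of all the fields `E` between `F` and some `M ∈ C(f, Q)`.

Theorem. Let `m ≥ 1`, and let `f₀` be a polynomial of the form above whose discriminant is not divisible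
by the square of a prime divisor of `m` and which is irreducible modulo the common prime divisors of `m`
and `2`. There are a finite set `Q` of primes of `F`, which do not divide `2 m`, and a constant `c > 0` such
that for all large `B` at least `c` times the number of all the `f` of height at most `B` are congruent to
`f₀` modulo `m`, irreducible over `F` and modulo all the primes over `2`, and satisfy for ALL the fields
`E ∈ E(f, Q)`: multiplication by two is bijective on `J(E)`, `J` the Jacobian of `C`, and all classes of
2-power order in the Tate-Shafarevich group of `J` over `E` are zero.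

So at finitely many primes of `F` the curve may be prescribed in an arbitrary open set of local curves
whose discriminant has valuation at most one (at the primes over `2`: with `f` irreducible): any smooth
reduction, any reduction with one node (split or not).

The question Q1 for `X = C` over the number field `E ∈ E(f, Q)`. The complex is the product of its
`ℓ`-primary parts (the limits over the powers `n` of `ℓ`). By the theorem of Colliot-Thélène (1997; the
duality of Cassels and Tate) its homology at the prime `ℓ` for a curve is zero if the Tate-Shafarevich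
group of the Jacobian has no nonzero divisible element of `ℓ`-power order. So the theorem says: over EVERY
number field `F`, for a positive proportion of ALL the curves `y ^ 2 = f(x)` of EVERY genus in EVERY
residue class, and over ALL the fields `E ∈ E(f, Q)`, the 2-primary part of the complex is exact,
unconditionally. As `J(E)` is finite of odd order (Mordell, Weil), both sides are known: a family of local
zero-cycles in `∏ lim CH_0(C_(E_w)) / 2 ^ n` (at the real places modulo norms) is orthogonal to `Br(C_E)` if
and only if it is an integral 2-adic multiple of the point at infinity. That the 2-primary part of the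
Tate-Shafarevich group has no divisible element is an isogeny invariant, so the 2-primary part of the
complex is also exact for all the curves over `E` whose Jacobian is isogenous over `E` to a product of such
`J`, for instance of powers of `J`.

The class `C(f, Q)` is closed under composita and infinite: `f` is irreducible modulo the primes over `2`, so
its Galois group contains a cycle of length `2 g + 1`, and by the theorem of Chebotarev there are
infinitely many primes modulo which it is irreducible; it contains many quadratic extensions, also those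
of its members, and many non-abelian extensions of unbounded degree. Nothing is assumed on the
Tate-Shafarevich groups; for `g ≥ 2` there is no modularity.

Here `J(L)` is the Picard group of the affine coordinate ring `L[x, y] / (y ^ 2 - f)` (the curve has one
point at infinity, which is rational), and the Tate-Shafarevich group is defined by continuous cocycles on
the absolute Galois group with values in `J` of the algebraic closure (`Pool.Agent.N874.Jac.Def`).

What was known. `MP_bd895b_nt.EveryNumberFieldAtTwo` (run 63374d34, project TF, helper874) is the theorem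
for `g = 1`, for `f` irreducible modulo all the primes in a given finite set, and for the members `M` of
the class; `MP_ac3185_nt.EveryFieldEveryGenus` (helper458, this run) is the same for all `g`, with a statement
on root numbers; `MP_f80667_ag.TwoExtensionsAllSignatures` is for `F = ℚ`, `g = 1` (with totally complex
`M`); `MP_1d384c_nt.JacobiansNumberFields` is for all `g` and `E = F`; `MP_ac3185_nt.RankZeroUniformly` for
`F = ℚ`. New are the residue classes (where `f₀` may have any factorization modulo `v` and a discriminant
divisible by `v`, `v` not over `2`), and the subfields `E` of `M`, which need not be Galois over `F`.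

Proof. The polynomials which are counted are the twists of polynomials with squarefree discriminant by
products `D` of primes in a set `S`. In order that the twists stay in the residue class the primes in `S`
are chosen congruent to one modulo `m` and `8`. The squarefree discriminants in the residue class are
counted by the sieve of project PF, in which the modulus is arbitrary; at the prime divisors of `m` the
hypothesis on the discriminant of `f₀` replaces the separability of the reduction; the constant does not
depend on `S`. For most of them lattices with a self-adjoint operator over `F`, reduction theory, quadratic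
reciprocity for trace forms and linear algebra over `F_2` give a twist for which a relaxed 2-Selmer group
over `F` is zero. Let `θ` be a zero of `f`. The local conditions over `M` define a group of elements of
`M(θ)` modulo squares which is stable under `Gal(M / F)`, a group of 2-power order; it is zero because its
invariant part comes from the relaxed Selmer group over `F`. If the Selmer group over `M` is zero, so is
that over a field `E` between `F` and `M`: let `h(θ)` be in the Selmer group over `E`; it is a square `s ^ 2`
in `M(θ)`, and for `σ ∈ Gal(M / E)` we have `σ(s) = ± s`; as the norm of `s` to `M`, of odd degree, has a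
square which is the square of an element of `E`, comparing the norms shows that the sign is `+`.

Helper files: `Pool/Agent/H859/NF/` (helper859), after files of the projects TF (helper874, with parts by
helpers 250, 300, 488), PF (helper783, with parts by helpers 31, 42, 61, 73, 75, 78, 99, 134, 169, 170, 189,
195, 225, 255, 286, 331, 352, 364, 374, 426, 438, 456, 459, 482, 490, 545, 547, 591, 614, 645, 667, 674, 707,
710, 747, 771, 823, 849, 862, 935, 951, 999), QM, JM and JB (helpers 874, 352, with parts by helpers 42, 106,
123, 160, 187, 199, 222, 232, 301, 394, 424, 438, 459, 521, 530, 615, 655, 711, 713, 738, 756, 814, 835, 849,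
891, 942, 999) of the run 63374d34.
-/

set_option autoImplicit false
set_option linter.all false

namespace Pool.Agent.Results.MP_f80667_ag.EveryGenusEveryClass

open Polynomial Filter IsDedekindDomain NumberField
open Pool.Agent.N874.Jac (UniquelyTwoDivisible ShaTwoTrivialReal)
open scoped Classical

section defs

variable {F : Type} [Field F] [NumberField F]

/-- `y ^ 2 = f(x)` is an equation of a curve of genus `g` over the number field `F` in our family, of
height at most `B`. -/
structure IsCurve (g B : ℕ) (f : (𝓞 F)[X]) : Prop where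
  monic : f.Monic
  degree : f.natDegree = 2 * g + 1
  trace : f.coeff (2 * g) = 0
  height : ∀ j ≤ 2 * g, ∀ σ : F →+* ℂ, ‖σ (f.coeff j : F)‖ ≤ (B : ℝ) ^ (2 * g + 1 - j)
  smooth : (f.map (algebraMap (𝓞 F) F)).Separable
  minimal : ∀ 𝔭 : Ideal (𝓞 F), 𝔭.IsPrime → 𝔭 ≠ ⊥ →
    ¬ ∀ j ≤ 2 * g, f.coeff j ∈ 𝔭 ^ (2 * (2 * g + 1 - j))

variable (F) in
/-- The equations of the curves of genus `g` over `F` of height at most `B`. -/
def Curves (g B : ℕ) : Set (𝓞 F)[X] := {f | IsCurve g B f}

/-- The polynomial `f` over an extension `L` of `F`. -/
noncomputable def polyOver (L : Type) [Field L] [Algebra F L] (f : (𝓞 F)[X]) : L[X] :=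
  (f.map (algebraMap (𝓞 F) F)).map (algebraMap F L)

/-- `f` is irreducible modulo `v`. -/
def IrreducibleMod (f : (𝓞 F)[X]) (v : HeightOneSpectrum (𝓞 F)) : Prop :=
  Irreducible (f.map (Ideal.Quotient.mk v.asIdeal))

/-- `M / F` is unramified at `v`. -/
def Unramified (v : HeightOneSpectrum (𝓞 F)) (M : Type) [Field M] [NumberField M]
    [Algebra F M] : Prop :=
  ∀ w : HeightOneSpectrum (𝓞 M), v.asIdeal.map (algebraMap (𝓞 F) (𝓞 M)) ≤ w.asIdeal →
    ¬ v.asIdeal.map (algebraMap (𝓞 F) (𝓞 M)) ≤ w.asIdeal ^ 2

/-- `v` splits completely in `M`: it is unramified and all integers of `M` are congruent to integers of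
`F` modulo every prime over `v`. -/
def SplitsCompletely (v : HeightOneSpectrum (𝓞 F)) (M : Type) [Field M] [NumberField M]
    [Algebra F M] : Prop :=
  Unramified v M ∧
  ∀ w : HeightOneSpectrum (𝓞 M), v.asIdeal.map (algebraMap (𝓞 F) (𝓞 M)) ≤ w.asIdeal →
    ∀ y : 𝓞 M, ∃ c : 𝓞 F, y - algebraMap (𝓞 F) (𝓞 M) c ∈ w.asIdeal

/-- `M` belongs to the class `C(f, Q)`: `M / F` is Galois of 2-power degree, all the real places of `F`,
all the primes over `2` and all `v ∈ Q` split completely in `M`, and `f` is irreducible modulo the ramified
primes. -/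
structure InClass (Q : Finset (HeightOneSpectrum (𝓞 F))) (f : (𝓞 F)[X]) (M : Type) [Field M]
    [NumberField M] [Algebra F M] : Prop where
  galois : IsGalois F M
  degree : ∃ n : ℕ, Module.finrank F M = 2 ^ n
  real : ∀ ρ : F →+* ℝ, ∃ ρ' : M →+* ℝ, ρ'.comp (algebraMap F M) = ρ
  two : ∀ v : HeightOneSpectrum (𝓞 F), (2 : 𝓞 F) ∈ v.asIdeal →
    Nonempty (M →ₐ[F] v.adicCompletion F)
  split : ∀ v ∈ Q, SplitsCompletely v M
  ramified : ∀ v : HeightOneSpectrum (𝓞 F), Unramified v M ∨ IrreducibleMod f v

/-- Over the number field `E` multiplication by two is bijective on `J(E)`, `J` the Jacobian of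
`y ^ 2 = f(x)`, and every class of 2-power order in the Tate-Shafarevich group of `J` over `E` is zero. -/
def NoTwoPart (f : (𝓞 F)[X]) (E : Type) [Field E] [NumberField E] [Algebra F E] : Prop :=
  UniquelyTwoDivisible (polyOver E f) ∧ ShaTwoTrivialReal (polyOver E f) (𝓞 E)

/-- The curves of genus `g` over `F` of height at most `B` for which `f` is congruent to `f₀` modulo `m`,
irreducible over `F` and modulo the primes over `2`, and which have no 2-part over ALL the fields between
`F` and a member of the class `C(f, Q)`. -/
def TrivialInClass (Q : Finset (HeightOneSpectrum (𝓞 F))) (m : ℕ) (f₀ : (𝓞 F)[X])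
    (g B : ℕ) : Set (𝓞 F)[X] :=
  {f ∈ Curves F g B | (∀ j, (m : 𝓞 F) ∣ f.coeff j - f₀.coeff j) ∧
    Irreducible (f.map (algebraMap (𝓞 F) F)) ∧
    (∀ v : HeightOneSpectrum (𝓞 F), (2 : 𝓞 F) ∈ v.asIdeal → IrreducibleMod f v) ∧
    ∀ (M : Type) [Field M] [NumberField M] [Algebra F M], InClass Q f M →
    ∀ (E : Type) [Field E] [NumberField E] [Algebra F E] [Algebra E M] [IsScalarTower F E M],
      NoTwoPart f E}

end defs

theorem discr_mem {F : Type} [Field F] [NumberField F] {g : ℕ} {f : (𝓞 F)[X]} (hf : f.Monic)
    (hd : f.natDegree = 2 * g + 1) (I : Ideal (𝓞 F)) :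
    Pool.Agent.N783.PF.dsc g f ∈ I ↔ f.discr ∈ I := by
  have hdeg : 0 < f.degree := by
    rw [degree_eq_natDegree hf.ne_zero, hd]
    exact_mod_cast Nat.succ_pos _
  have h := resultant_deriv (f := f) hdeg
  rw [hd, hf.leadingCoeff, mul_one, Nat.add_sub_cancel] at h
  have h' : Pool.Agent.N783.PF.dsc g f = (-1) ^ ((2 * g + 1) * (2 * g) / 2) * f.discr := h
  rw [h']
  rcases neg_one_pow_eq_or (𝓞 F) ((2 * g + 1) * (2 * g) / 2) with h1 | h1
  · rw [h1, one_mul]
  · rw [h1, neg_one_mul, neg_mem_iff]

theorem good_of {F : Type} [Field F] [NumberField F] {Q : Finset (HeightOneSpectrum (𝓞 F))}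
    {m g B : ℕ} {f₀ f : (𝓞 F)[X]} (h1 : Pool.Agent.N783.PF.Ht g B f)
    (h2 : Irreducible (Pool.Agent.N783.PF.fF f))
    (h3 : Pool.Agent.N783.PF.Cg (Pool.Agent.N783.PF.sp F m) f f₀)
    (h4 : ∀ v : HeightOneSpectrum (𝓞 F), (2 : 𝓞 F) ∈ v.asIdeal →
      Irreducible (Pool.Agent.N783.PF.rd v.asIdeal f))
    (h5 : Pool.Agent.N874.TF.Uni {𝔭 | ∃ v ∈ Q, 𝔭 = v.asIdeal} f f)
    (h6 : Pool.Agent.N783.PF.Min g f) : f ∈ TrivialInClass Q m f₀ g B := by
  have hodd : Odd f.natDegree := by
    rw [h1.deg]
    exact odd_two_mul_add_one g
  refine ⟨⟨h1.mon, h1.deg, h1.tr, h1.ht, h2.separable, h6⟩, fun j => ?_, h2, h4, ?_⟩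
  · exact Ideal.mem_span_singleton.1 (h3 j)
  · intro M _ _ _ hM E _ _ _ _ _
    haveI := hM.galois
    obtain ⟨n, hn⟩ := hM.degree
    have hspl : ∀ v : HeightOneSpectrum (𝓞 F), SplitsCompletely v M →
        Pool.Agent.N874.TF.Spl v M := by
      intro v hv
      refine ⟨Pool.Agent.N874.TF.unr_of hv.1, fun w hw y => ?_⟩
      obtain ⟨y, rfl⟩ := Ideal.Quotient.mk_surjective y
      obtain ⟨c, hc⟩ := hv.2 w (Ideal.map_le_iff_le_comap.2 hw) y
      exact ⟨c, (Ideal.Quotient.eq.2 hc).symm⟩
    have hsel := h5 M (fun v hv => by
        obtain ⟨σ⟩ := hM.two v hv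
        exact ⟨σ, fun y => σ.commutes y⟩) hM.real n hn (by
        rintro v ⟨v', hv', h⟩
        rw [HeightOneSpectrum.ext h]
        exact hspl v' (hM.split v' hv')) (by
        intro v hv
        rcases hM.ramified v with h | h
        · exact absurd (Pool.Agent.N874.TF.unr_of h) hv
        · exact h)
    obtain ⟨⟨e, he⟩, hE⟩ := Pool.Agent.H859.NF.selM_tower (E := E) hn h1.mon hodd h2 hsel
    exact Pool.Agent.N874.TF.genuineF he h1.mon hodd h2 hE

/-- **Every genus, every number field, every residue class.** Let `g ≥ 1`, `F` a number field, `m ≥ 1` and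
`f₀` monic of degree `2 g + 1` over the integers of `F`, without term of degree `2 g`, with a discriminant
not divisible by the square of a prime divisor of `m`, and irreducible modulo the common prime divisors of
`m` and `2`. There are a finite set `Q` of primes which do not divide `2 m` and `c > 0` such that for all
large `B` at least `c` times the number of all the curves of genus `g` of height at most `B` are congruent
to `f₀` modulo `m`, irreducible over `F` and modulo the primes over `2`, and have no 2-part over ALL the
fields between `F` and a member of the class `C(f, Q)`. -/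
theorem result (g : ℕ) (hg : 1 ≤ g) (F : Type) [Field F] [NumberField F] (m : ℕ) (hm : 0 < m)
    (f₀ : (𝓞 F)[X]) (hf₀ : f₀.Monic) (hd₀ : f₀.natDegree = 2 * g + 1) (ht₀ : f₀.coeff (2 * g) = 0)
    (hdisc : ∀ v : HeightOneSpectrum (𝓞 F), (m : 𝓞 F) ∈ v.asIdeal → f₀.discr ∉ v.asIdeal ^ 2)
    (hirr : ∀ v : HeightOneSpectrum (𝓞 F), (2 : 𝓞 F) ∈ v.asIdeal → (m : 𝓞 F) ∈ v.asIdeal →
      IrreducibleMod f₀ v) :
    (∀ B : ℕ, (Curves F g B).Finite) ∧
    ∃ Q : Finset (HeightOneSpectrum (𝓞 F)),
      (∀ v ∈ Q, (2 : 𝓞 F) ∉ v.asIdeal ∧ (m : 𝓞 F) ∉ v.asIdeal) ∧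
      ∃ c : ℝ, 0 < c ∧ ∀ᶠ B : ℕ in atTop, 0 < (Curves F g B).ncard ∧
        c * ((Curves F g B).ncard : ℝ) ≤ ((TrivialInClass Q m f₀ g B).ncard : ℝ) := by
  have hsub : ∀ B, Curves F g B ⊆ {f : (𝓞 F)[X] | Pool.Agent.N783.PF.Ht g B f} :=
    fun B f hf => ⟨hf.monic, hf.degree, hf.trace, hf.height⟩
  have hfinH : ∀ B : ℕ, 1 ≤ B → {f : (𝓞 F)[X] | Pool.Agent.N783.PF.Ht g B f}.Finite := fun B hB =>
    (Pool.Agent.N99.PF.ht_card (Pool.Agent.N490.PF.pts F).2.choose_spec.1
      (Pool.Agent.N490.PF.pts F).2.choose_spec.2.2 g B hB).1
  have hmono : ∀ B : ℕ, Curves F g B ⊆ Curves F g (max B 1) := by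
    intro B f hf
    refine ⟨hf.monic, hf.degree, hf.trace, fun j hj σ => (hf.height j hj σ).trans ?_, hf.smooth,
      hf.minimal⟩
    gcongr
    exact le_max_left _ _
  have hfin : ∀ B, (Curves F g B).Finite := fun B =>
    ((hfinH _ (le_max_right _ _)).subset (hsub _)).subset (hmono B)
  refine ⟨hfin, ?_⟩
  obtain ⟨Q, hQ, c, hc, B₀, hB₀⟩ := Pool.Agent.H859.NF.final_any F hg (m := m) (f₀ := f₀)
    ⟨hm, hf₀, hd₀, ht₀, hirr, fun v hv h => hdisc v hv ((discr_mem hf₀ hd₀ _).1 h)⟩
  refine ⟨Q, hQ, c, hc, ?_⟩
  filter_upwards [eventually_ge_atTop B₀] with B hB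
  obtain ⟨hHt, hle⟩ := hB₀ B hB
  have hfin2 : (TrivialInClass Q m f₀ g B).Finite := (hfin B).subset fun f hf => hf.1
  have h1 := Set.ncard_le_ncard
    (s := {f : (𝓞 F)[X] | Pool.Agent.N783.PF.Ht g B f ∧ Irreducible (Pool.Agent.N783.PF.fF f) ∧
        Pool.Agent.N783.PF.Cg (Pool.Agent.N783.PF.sp F m) f f₀ ∧
        (∀ v : HeightOneSpectrum (𝓞 F), (2 : 𝓞 F) ∈ v.asIdeal →
          Irreducible (Pool.Agent.N783.PF.rd v.asIdeal f)) ∧
        Pool.Agent.N874.TF.Tws g {𝔭 | ∃ v ∈ Q, 𝔭 = v.asIdeal} f ∧
        Pool.Agent.N874.TF.Uni {𝔭 | ∃ v ∈ Q, 𝔭 = v.asIdeal} f f ∧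
        Pool.Agent.N783.PF.Min g f})
    (t := TrivialInClass Q m f₀ g B)
    (fun f hf => good_of hf.1 hf.2.1 hf.2.2.1 hf.2.2.2.1 hf.2.2.2.2.2.1 hf.2.2.2.2.2.2) hfin2
  have h2 : c * ({f : (𝓞 F)[X] | Pool.Agent.N783.PF.Ht g B f}.ncard : ℝ) ≤
      ((TrivialInClass Q m f₀ g B).ncard : ℝ) := hle.trans (by exact_mod_cast h1)
  have hne : 0 < {f : (𝓞 F)[X] | Pool.Agent.N783.PF.Ht g B f}.ncard := by
    rw [Set.ncard_pos hHt]
    refine ⟨X ^ (2 * g + 1), monic_X_pow _, natDegree_X_pow _, ?_, fun j hj => ?_⟩
    · rw [coeff_X_pow, if_neg (by omega)]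
    · intro σ
      rw [coeff_X_pow, if_neg (by omega)]
      simp only [map_zero, norm_zero]
      positivity
  have h3 : 0 < ((TrivialInClass Q m f₀ g B).ncard : ℝ) :=
    lt_of_lt_of_le (mul_pos hc (by exact_mod_cast hne)) h2
  refine ⟨?_, ?_⟩
  · have h4 := Set.ncard_le_ncard (s := TrivialInClass Q m f₀ g B) (t := Curves F g B)
      (fun f hf => hf.1) (hfin B)
    have h5 : 0 < (TrivialInClass Q m f₀ g B).ncard := by exact_mod_cast h3
    omega
  · refine le_trans ?_ h2
    have h4 := Set.ncard_le_ncard (hsub B) hHt
    exact mul_le_mul_of_nonneg_left (by exact_mod_cast h4) hc.le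

end Pool.Agent.Results.MP_f80667_ag.EveryGenusEveryClass
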